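import Pool.Agent.K1H72.GVAS.Main

/-!
# Thin 1-GVAS with doubly exponential derivations

The rules `M → 0`, `M → (-d) M c` with `d ≤ c` multiply the counter weakly by `c / d`: they lead from
`x` to `y` only if `d y ≤ c x`.  Put `ρ i = (3 ^ i + 1) / 3 ^ i`.  The chain which multiplies weakly
`2 ^ m` times by `ρ m` and then, for `i = m - 1, …, 0`, `2 ^ i` times by `ρ i / ρ (i + 1) ^ 2 > 1`
has the product `ρ 0 = 2` (the product telescopes), and it is generated by a thin grammar of size
polynomial in `m` (repeated doubling `U (k + 1) → U k U k`).  The rules `S → 1 T (-2)`,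
`T → 1 T (-2)`, `T → chain` lead from `0` to `0` only if, for some `x ≥ 1`, the chain leads from `x`
to `2 x`, i.e. only if every weak multiplication is exact; after the first phase this forces
`(3 ^ m) ^ (2 ^ m) ∣ x`, and the derivation contains more than `x` nodes.
-/

set_option autoImplicit false

namespace Pool.Agent.Results.MP_020e3f_lc.DoublyExponentialDerivations

open Pool.Agent.K1H72.OneGVAS Polynomial

/-- **There is no exponential bound for the size of derivations of thin 1-GVAS.**  For every real
polynomial `P` there are a thin 1-GVAS `G` (with finite set `N` of nonterminals; moreover no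
right-hand side is empty) and `a, b` such that `G` has derivations from `a` to `b`, but each of them
has more than `2 ^ P (size G + size a + size b)` vertices. -/
theorem result (P : ℝ[X]) :
    ∃ (N : Type) (_ : Fintype N) (G : GVAS N) (a b : ℕ), G.Thin ∧ (∀ r ∈ G.rules, r.2 ≠ []) ∧
      (∃ t, G.DerivesFromTo t a b) ∧
      ∀ t, G.DerivesFromTo t a b →
        (2 : ℝ) ^ (P.eval ((G.size + GVAS.bits a + GVAS.bits b : ℕ) : ℝ)) < (t.size : ℝ) :=
  main P

end Pool.Agent.Results.MP_020e3f_lc.DoublyExponentialDerivations
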